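import Pool.Agent.N798.H.Stm2

set_option autoImplicit false

/-!
Project HS (helper798), part SC (helper164): one factor, dyadic ranges, uniformly in the weights.
-/

namespace Pool.Agent.N164.HS

open Finset MeasureTheory Filter Topology
open scoped ENNReal
open Pool.Agent.H376R2.MR (er)
open Pool.Agent.N798.T
open Pool.Agent.N798.HS

theorem u_ge {u : ℕ → ℕ} (h : ∀ m n, 1 ≤ m → m < n → u m < u n) (h1 : 1 ≤ u 1) :
    ∀ j : ℕ, 1 ≤ j → j ≤ u j := by
  intro j hj
  induction j, hj using Nat.le_induction with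
  | base => exact h1
  | succ n hn ih =>
    have := h n (n + 1) hn (Nat.lt_succ_self n)
    omega

theorem vl_meas' (b : ℤ) : Measurable (vl b) := by
  unfold vl
  exact (measurable_of_countable (fun z : ℤ => (z + b).toNat)).comp Int.measurable_floor

/-- the eventual inequalities -/
theorem ev (s : ℝ) (C m n0 : ℕ) : ∃ N1 : ℕ, 2 ≤ N1 ∧ ∀ N : ℕ, N1 ≤ N →
    n0 ≤ N ∧ 1 ≤ Real.log N ∧ 1 ≤ s + Real.log N ∧ Real.log N / 2 ≤ s + Real.log N ∧
    2 * N * (Real.log (2 * N)) ^ C + 2 * N ≤ N * (Real.log N) ^ (C + 1) ∧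
    (Real.log N) ^ m ≤ N ∧ 2 + (C + 1) * Real.log (Real.log N) ≤ Real.log N := by
  have hlog : Tendsto (fun N : ℕ => Real.log (N : ℝ)) atTop atTop :=
    Real.tendsto_log_atTop.comp tendsto_natCast_atTop_atTop
  have e1 : ∀ᶠ N : ℕ in atTop, 2 ^ (C + 1) + 2 + (2 * |s| + 2) + 4 ≤ Real.log (N : ℝ) :=
    hlog.eventually_ge_atTop _
  have e2 : ∀ᶠ N : ℕ in atTop, (Real.log (N : ℝ)) ^ m ≤ N := by
    have h := (Real.isLittleO_pow_log_id_atTop (n := m)).bound one_pos
    have h' := tendsto_natCast_atTop_atTop (R := ℝ) |>.eventually h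
    filter_upwards [h'] with N hN
    simp only [one_mul, id] at hN
    have h2 : ‖(N : ℝ)‖ = N := by rw [Real.norm_eq_abs, abs_of_nonneg (Nat.cast_nonneg N)]
    rw [h2] at hN
    exact (Real.le_norm_self _).trans hN
  have e3 : ∀ᶠ N : ℕ in atTop, 2 + (C + 1) * Real.log (Real.log (N : ℝ)) ≤ Real.log N := by
    have hc : (0 : ℝ) < 1 / (2 * ((C : ℝ) + 1)) := by positivity
    have h := Real.isLittleO_log_id_atTop.bound hc
    have h2 : ∀ᶠ x : ℝ in atTop, 4 ≤ x := eventually_ge_atTop 4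
    have h' := hlog.eventually (h.and h2)
    filter_upwards [h'] with N hN
    obtain ⟨a1, a2⟩ := hN
    simp only [id] at a1
    have h3 : ‖Real.log (N : ℝ)‖ = Real.log N := by
      rw [Real.norm_eq_abs, abs_of_nonneg (by linarith)]
    rw [h3] at a1
    have h4 : Real.log (Real.log (N : ℝ)) ≤ 1 / (2 * ((C : ℝ) + 1)) * Real.log N :=
      (Real.le_norm_self _).trans a1
    have h5 : ((C : ℝ) + 1) * Real.log (Real.log (N : ℝ)) ≤ Real.log N / 2 := by
      have h6 := mul_le_mul_of_nonneg_left h4 (by positivity : (0 : ℝ) ≤ (C : ℝ) + 1)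
      refine h6.trans (le_of_eq ?_)
      field_simp
    linarith
  obtain ⟨N1, hN1⟩ := eventually_atTop.1 (e1.and (e2.and e3))
  refine ⟨max N1 (max n0 2), le_trans (le_max_right _ _) (le_max_right _ _), fun N hN => ?_⟩
  obtain ⟨a1, a2, a3⟩ := hN1 N (le_trans (le_max_left _ _) hN)
  have hN2 : 2 ≤ N := le_trans (le_trans (le_max_right _ _) (le_max_right _ _)) hN
  have hn0 : n0 ≤ N := le_trans (le_trans (le_max_left _ _) (le_max_right _ _)) hN
  have hNr : (2 : ℝ) ≤ N := by exact_mod_cast hN2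
  have hp : (0 : ℝ) < 2 ^ (C + 1) := by positivity
  have hs0 := abs_nonneg s
  have hs1 := neg_abs_le s
  refine ⟨hn0, by linarith, by linarith, by linarith, ?_, a2, a3⟩
  set l := Real.log (N : ℝ) with hl
  have hl1 : 1 ≤ l := by linarith
  have h2l : Real.log (2 * N) ≤ 2 * l := by
    rw [Real.log_mul (by norm_num) (by linarith)]
    have := Real.log_two_lt_d9
    linarith
  have h2l0 : 0 ≤ Real.log (2 * (N : ℝ)) := Real.log_nonneg (by linarith)
  have h3 : (Real.log (2 * N)) ^ C ≤ (2 * l) ^ C := pow_le_pow_left₀ h2l0 h2l C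
  have h4 : 1 ≤ l ^ C := one_le_pow₀ hl1
  calc 2 * N * (Real.log (2 * N)) ^ C + 2 * N ≤ 2 * N * (2 * l) ^ C + 2 * N * l ^ C := by
        have k1 : 2 * N * (Real.log (2 * N)) ^ C ≤ 2 * N * (2 * l) ^ C := by gcongr
        have k2 : 2 * (N : ℝ) * 1 ≤ 2 * N * l ^ C := by gcongr
        linarith
    _ = N * l ^ C * (2 ^ (C + 1) + 2) := by rw [mul_pow]; ring
    _ ≤ N * l ^ C * l := by
        have : (2 : ℝ) ^ (C + 1) + 2 ≤ l := by linarith
        gcongr
    _ = N * l ^ (C + 1) := by rw [pow_succ]; ring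

theorem fin_eq (c P c' n q : ℝ) : 4 * n * (c ^ 2 * P * n / q + c' ^ 2 * n / q) =
    4 * (c ^ 2 * P + c' ^ 2) * n ^ 2 / q := by ring

theorem sc (h1 : S_PL2) (h2 : S_FB) (h3 : Pool.Agent.N798.T.S_FD)
    (h4 : Wt (fun n => if n.Prime then 1 else 0) 1) : S_SC := by
  intro u hu b s K
  obtain ⟨hinc, hu1, C, n0, hub⟩ := hu
  set A0 : ℕ := C + 1 + K with hA0
  set K1 : ℕ := A0 + C + K + 3 with hK1
  obtain ⟨CF, hF⟩ := h2 _ 1 h4 b 4 K1
  obtain ⟨N1, hN12, hev⟩ := ev s C (C + 1 + A0) n0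
  set C' : ℝ := 2 * Real.exp (s + 1) + 6 with hC'
  have hC'0 : 0 < C' := by positivity
  set D : ℝ := 4 * (CF ^ 2 * 4 ^ K1 + C' ^ 2) with hD
  refine ⟨D, N1, by positivity, hN12, fun N N' hge hNN hN' w hw => ?_⟩
  obtain ⟨hn0, hl1, hY1, hY2, hM, hlm, hR2⟩ := hev N hge
  have hN2 : 2 ≤ N := hN12.trans hge
  have hNr : (2 : ℝ) ≤ N := by exact_mod_cast hN2
  have hN0 : (0 : ℝ) < N := by linarith
  set l := Real.log (N : ℝ) with hl
  have hl0 : 0 < l := by linarith
  set M : ℝ := 2 * N * (Real.log (2 * N)) ^ C + 2 * N with hMdef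
  have h2l0 : 0 ≤ Real.log (2 * (N : ℝ)) := Real.log_nonneg (by linarith)
  have hM2 : 2 * (N : ℝ) ≤ M := by
    have : 0 ≤ 2 * (N : ℝ) * (Real.log (2 * N)) ^ C := by positivity
    linarith
  have hM0 : 0 < M := by linarith
  set Y : ℝ := s + l with hY
  set R : ℝ := 1 + Real.log M - l with hR
  have hlM : l ≤ Real.log M := Real.log_le_log hN0 (by linarith)
  have hR0 : 0 ≤ R := by linarith
  have hYR : Y + R = s + 1 + Real.log M := by rw [hY, hR]; ring
  have heYR : Real.exp (Y + R) = Real.exp (s + 1) * M := by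
    rw [hYR, Real.exp_add (s + 1), Real.exp_log hM0]
  have hRl : R + 1 ≤ l := by
    have h5 : Real.log M ≤ l + (C + 1) * Real.log l := by
      have h6 := Real.log_le_log hM0 hM
      rw [Real.log_mul (by linarith) (by positivity), Real.log_pow] at h6
      push_cast at h6
      linarith
    rw [hR]
    linarith
  -- sizes of the members
  have hmem : ∀ j ∈ Ioc N N', N < j ∧ (N : ℝ) ≤ u j ∧ (u j : ℝ) ≤ M := by
    intro j hj
    obtain ⟨hj1, hj2⟩ := Finset.mem_Ioc.1 hj
    refine ⟨hj1, ?_, ?_⟩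
    · have := u_ge hinc hu1 j (by omega)
      exact_mod_cast (by omega : N ≤ u j)
    · have h5 := hub j (by omega)
      have h6 : (j : ℝ) ≤ 2 * N := by exact_mod_cast (by omega : j ≤ 2 * N)
      have hj0 : (1 : ℝ) ≤ j := by exact_mod_cast (by omega : 1 ≤ j)
      have h7 : Real.log j ≤ Real.log (2 * N) := Real.log_le_log (by linarith) h6
      have h8 : 0 ≤ Real.log (j : ℝ) := Real.log_nonneg hj0
      have h9 : (j : ℝ) * (Real.log j) ^ C ≤ 2 * N * (Real.log (2 * N)) ^ C := by gcongr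
      rw [hMdef]
      linarith
  have hinj : Set.InjOn u (Ioc N N' : Finset ℕ) := by
    intro i hi j hj hij
    have hi' := Finset.mem_Ioc.1 (Finset.mem_coe.1 hi)
    have hj' := Finset.mem_Ioc.1 (Finset.mem_coe.1 hj)
    rcases lt_trichotomy i j with h | h | h
    · exact absurd hij (hinc i j (by omega) h).ne
    · exact h
    · exact absurd hij (hinc j i (by omega) h).ne'
  -- the function
  set a : ℕ → ℂ := fun n => if n.Prime then 1 else 0 with ha
  set h : ℝ → ℂ := fun y => a (vl b (Real.exp y)) - ((1 / y ^ 1 : ℝ) : ℂ) with hh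
  have hhm : Measurable h := by
    refine Measurable.sub ?_ ?_
    · exact (measurable_of_countable a).comp ((vl_meas' _).comp Real.measurable_exp)
    · exact Complex.measurable_ofReal.comp (Measurable.const_div (measurable_id.pow_const _) 1)
  have hh1 : ∀ y ∈ Set.Icc Y (Y + R), ‖h y‖ ≤ 2 := by
    intro y hy
    have hy1 : 1 ≤ y := hY1.trans hy.1
    simp only [hh]
    refine (norm_sub_le _ _).trans ?_
    have h2 : ‖((1 / y ^ 1 : ℝ) : ℂ)‖ ≤ 1 := by
      rw [Complex.norm_real, Real.norm_of_nonneg (by positivity), div_le_one (by positivity)]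
      exact one_le_pow₀ hy1
    linarith [h4.le_one (vl b (Real.exp y))]
  set H : ℝ → ℂ := (Set.Icc Y (Y + R)).indicator h with hH
  have hYR' : Y ≤ Y + R := by linarith
  have hint : ∀ η : ℝ, ∫ y, H y * er (-η) y = ∫ y in Y..(Y + R), h y * er (-η) y := by
    intro η
    rw [intervalIntegral.integral_of_le hYR', ← integral_Icc_eq_integral_Ioc,
      ← integral_indicator measurableSet_Icc]
    congr 1
    funext y
    simp only [hH, Set.indicator]
    split_ifs
    · rfl
    · rw [zero_mul]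
  set g : ℕ → ℂ := fun n => w (Function.invFunOn u (Ioc N N' : Finset ℕ) n) with hg
  have hgu : ∀ j ∈ Ioc N N', g (u j) = w j := by
    intro j hj
    simp only [hg]
    rw [hinj.leftInvOn_invFunOn (Finset.mem_coe.2 hj)]
  set T : ℝ := M * l ^ A0 with hT
  set V : ℝ := 2 * (Real.exp (Y + R) + 1) + 4 with hV
  set κ : ℝ := |CF| * (R + 1) / Y ^ K1 with hκ
  have hlA : 1 ≤ l ^ A0 := one_le_pow₀ hl1
  have hMT : M ≤ T := by
    rw [hT]
    nlinarith
  have hM1 : 1 ≤ M := by linarith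
  have hT1 : 1 ≤ T := hM1.trans hMT
  have hT0 : 0 < T := by linarith
  have hY0 : 0 < Y := by linarith
  have hTle : T ≤ (N : ℝ) * l ^ (C + 1 + A0) := by
    calc T = M * l ^ A0 := hT
      _ ≤ (N * l ^ (C + 1)) * l ^ A0 := by gcongr
      _ = (N : ℝ) * l ^ (C + 1 + A0) := by rw [pow_add l (C + 1) A0]; ring
  have hTexp : T ≤ Real.exp ((4 : ℕ) * Y) := by
    have k1 : T ≤ N * N := hTle.trans (by gcongr)
    have k2 : (N : ℝ) * N = Real.exp (2 * l) := by
      rw [two_mul, Real.exp_add, hl, Real.exp_log hN0]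
    rw [k2] at k1
    refine k1.trans (Real.exp_le_exp.2 ?_)
    push_cast
    linarith
  have hpl := h1 ((Ioc N N').image u) M (by
      intro n hn
      obtain ⟨j, hj, rfl⟩ := Finset.mem_image.1 hn
      obtain ⟨k1, k2, k3⟩ := hmem j hj
      refine ⟨?_, k3⟩
      have : (1 : ℝ) ≤ u j := by linarith
      exact_mod_cast this) g (fun n => hw _) H (hhm.indicator measurableSet_Icc) (by
      intro y
      simp only [hH, Set.indicator]
      split_ifs with hy
      · exact hh1 y hy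
      · rw [norm_zero]; norm_num) Y R hR0 (by
      intro y hy
      simp only [hH, Set.indicator, if_neg hy]) V (by positivity) (by
      intro η hη
      rw [hint]
      exact (h3 a b 1 h4.le_one Y (Y + R) 0 η hY1 hYR' hη).2) T κ hT1 hMT (by positivity) (by
      intro η hη
      rw [hint]
      have k1 := hF Y Y (Y + R) η hY1 le_rfl hYR' (hη.trans hTexp)
      refine k1.trans ?_
      rw [hκ]
      have k2 : Y + R - Y + 1 = R + 1 := by ring
      rw [k2]
      gcongr
      exact le_abs_self _) s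
  -- from the window to the line
  have hleft : ∫⁻ x in Set.Icc (0 : ℝ) 1, ‖∑ j ∈ Ioc N N', w j * (Fp b s x (u j) - Mp s x (u j))‖ₑ ^ 2 ≤
      ∫⁻ x, ‖∑ n ∈ (Ioc N N').image u, g n * H (x + (s + Real.log n))‖ₑ ^ 2 := by
    refine le_trans (le_of_eq ?_) (setLIntegral_le_lintegral (Set.Icc (0 : ℝ) 1) _)
    refine setLIntegral_congr_fun measurableSet_Icc fun x hx => ?_
    rw [Finset.sum_image hinj]
    congr 2
    refine Finset.sum_congr rfl fun j hj => ?_
    obtain ⟨k1, k2, k3⟩ := hmem j hj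
    have hu0 : (0 : ℝ) < u j := by linarith
    have hlu1 : l ≤ Real.log (u j) := Real.log_le_log hN0 k2
    have hlu2 : Real.log (u j) ≤ Real.log M := Real.log_le_log hu0 k3
    have hin : x + (s + Real.log (u j)) ∈ Set.Icc Y (Y + R) := by
      rw [hYR]
      constructor
      · rw [hY]; linarith [hx.1]
      · linarith [hx.2]
    have hexp : Real.exp (x + (s + Real.log (u j))) = Real.exp (s + x) * u j := by
      rw [show x + (s + Real.log (u j)) = (s + x) + Real.log (u j) by ring, Real.exp_add,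
        Real.exp_log hu0]
    have hlog : Real.log (Real.exp (s + x) * u j) = x + (s + Real.log (u j)) := by
      rw [← hexp, Real.log_exp]
    rw [hgu j hj, hH, Set.indicator_of_mem hin, hh]
    simp only [Fp, Mp, ha]
    rw [hlog, hexp, pow_one]
  refine hleft.trans (hpl.trans (ENNReal.ofReal_le_ofReal ?_))
  -- the final estimate
  have hcard : (((Ioc N N').image u).card : ℝ) ≤ N := by
    have k1 : ((Ioc N N').image u).card ≤ N := by
      refine Finset.card_image_le.trans ?_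
      rw [Nat.card_Ioc]
      omega
    exact_mod_cast k1
  have hVM : V ≤ C' * M := by
    rw [hV, heYR, hC']
    nlinarith
  have hV0 : 0 ≤ V := by positivity
  have b1 : V ^ 2 / T ≤ C' ^ 2 * N / l ^ K := by
    have k1 : V ^ 2 ≤ (C' * M) ^ 2 := pow_le_pow_left₀ hV0 hVM 2
    have k2 : V ^ 2 / T ≤ C' ^ 2 * M / l ^ A0 := by
      rw [div_le_div_iff₀ hT0 (by positivity), hT]
      calc V ^ 2 * l ^ A0 ≤ (C' * M) ^ 2 * l ^ A0 := by gcongr
        _ = C' ^ 2 * M * (M * l ^ A0) := by ring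
    refine k2.trans ?_
    rw [div_le_div_iff₀ (by positivity) (by positivity)]
    calc C' ^ 2 * M * l ^ K ≤ C' ^ 2 * (N * l ^ (C + 1)) * l ^ K := by gcongr
      _ = C' ^ 2 * N * l ^ A0 := by rw [hA0, pow_add l (C + 1) K]; ring
  have b2 : κ ^ 2 * T ≤ CF ^ 2 * 4 ^ K1 * N / l ^ K := by
    have k1 : κ ≤ |CF| * l * 2 ^ K1 / l ^ K1 := by
      rw [hκ, div_le_div_iff₀ (by positivity) (by positivity)]
      have k2 : l ^ K1 ≤ 2 ^ K1 * Y ^ K1 := by
        rw [← mul_pow]
        exact pow_le_pow_left₀ hl0.le (by linarith) K1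
      calc |CF| * (R + 1) * l ^ K1 ≤ |CF| * l * (2 ^ K1 * Y ^ K1) := by gcongr
        _ = |CF| * l * 2 ^ K1 * Y ^ K1 := by ring
    have hκ0 : 0 ≤ κ := by positivity
    have k3 : κ ^ 2 ≤ (|CF| * l * 2 ^ K1 / l ^ K1) ^ 2 := pow_le_pow_left₀ hκ0 k1 2
    have k4 : κ ^ 2 * T ≤ (|CF| * l * 2 ^ K1 / l ^ K1) ^ 2 * (N * l ^ (C + 1 + A0)) := by gcongr
    refine k4.trans ?_
    rw [div_pow, div_mul_eq_mul_div, div_le_div_iff₀ (by positivity) (by positivity)]
    have k5 : l ^ (2 + (C + 1 + A0) + K) ≤ l ^ (K1 * 2) :=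
      pow_le_pow_right₀ hl1 (by omega)
    calc (|CF| * l * 2 ^ K1) ^ 2 * (N * l ^ (C + 1 + A0)) * l ^ K
        = |CF| ^ 2 * (2 ^ K1) ^ 2 * N * l ^ (2 + (C + 1 + A0) + K) := by
          rw [pow_add l (2 + (C + 1 + A0)) K, pow_add l 2 (C + 1 + A0)]
          ring
      _ ≤ |CF| ^ 2 * (2 ^ K1) ^ 2 * N * l ^ (K1 * 2) := by gcongr
      _ = CF ^ 2 * 4 ^ K1 * N * (l ^ K1) ^ 2 := by
          rw [sq_abs, ← pow_mul 2 K1 2, mul_comm K1 2, pow_mul 2 2 K1, ← pow_mul l K1 2,
            mul_comm K1 2]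
          norm_num
  have b3 : 0 ≤ κ ^ 2 * T + V ^ 2 / T := by positivity
  calc 4 * (((Ioc N N').image u).card : ℝ) * (κ ^ 2 * T + V ^ 2 / T)
      ≤ 4 * N * (CF ^ 2 * 4 ^ K1 * N / l ^ K + C' ^ 2 * N / l ^ K) := by gcongr
    _ = D * N ^ 2 / l ^ K := fin_eq _ _ _ _ _

end Pool.Agent.N164.HS
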